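import Pool.Agent.helper19.SQ.FS0
import Pool.Agent.helper74.TG.SW

/-! sq:FS -/

namespace Pool.Agent.helper85.SQ

open Finset ArithmeticFunction

theorem psi_small (M b : ℕ) (hM : 0 < M) (hb : Nat.Coprime b M) : ∃ N₀ : ℕ, ∀ N : ℕ, N₀ ≤ N →
    ∀ p : ℕ, p.Prime → ¬ p ∣ M → (p : ℝ) ≤ Real.log N ^ 12 →
    (N : ℝ) / (2 * (Nat.totient M : ℝ) * (p : ℝ) ^ 2)
      ≤ ∑ n ∈ Ioc 0 N with n ≡ b [MOD M] ∧ n ≡ p ^ 2 - 1 [MOD p ^ 2], vonMangoldt n :=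
  FS_of Pool.Agent.helper74.TG.siegel_walfisz M b hM hb

end Pool.Agent.helper85.SQ
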